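import Pool.Agent.helper14.SCO.Spec

set_option autoImplicit false

/-!
# Row PHO (pigeonhole)
-/

namespace Pool.Agent.SCO

open Pool.Agent.Scheepers

theorem PHO : PHO_stmt := by
  intro p J W b hW t w k l hk hl hbl hbad z hz hinf
  have hex : ∀ i, Pat (p.a J) (p.a (l i)) t (w i) z →
      ∃ v : ℕ → Bool, cat (p.a J) v z ∈ W (k i) := by
    intro i hi
    have h1 : z ∉ p.blk (W (k i)) J (l i) := fun h => (hbad i).2.2 z h hi
    have h2 : ∃ v : ℕ → Bool, (∀ e, p.a J ≤ e → e < p.a (l i) → v e = z e) ∧ v ∈ W (k i) := by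
      by_contra hcon
      push Not at hcon
      exact h1 ⟨fun j hj _ => hz j hj, hcon⟩
    obtain ⟨v, hv, hvW⟩ := h2
    refine ⟨v, hW (k i) v _ (fun e he => ?_) hvW⟩
    unfold cat
    by_cases h3 : e < p.a J
    · rw [if_pos h3]
    · rw [if_neg h3]
      refine hv e (not_lt.1 h3) ?_
      exact lt_of_lt_of_le (lt_of_lt_of_le he (hbl i)) (p.mono.id_le (l i))
  classical
  have hex' : ∀ i, ∃ v : ℕ → Bool, Pat (p.a J) (p.a (l i)) t (w i) z →
      cat (p.a J) v z ∈ W (k i) := by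
    intro i
    by_cases h : Pat (p.a J) (p.a (l i)) t (w i) z
    · obtain ⟨v, hv⟩ := hex i h
      exact ⟨v, fun _ => hv⟩
    · exact ⟨fun _ => false, fun h' => absurd h' h⟩
  choose v hv using hex'
  let f : ℕ → (Fin (p.a J) → Bool) := fun i e => v i e
  obtain ⟨s, hs⟩ : ∃ s : Fin (p.a J) → Bool,
      {i | Pat (p.a J) (p.a (l i)) t (w i) z ∧ f i = s}.Infinite := by
    by_contra hcon
    push Not at hcon
    apply hinf
    have h1 : {i | Pat (p.a J) (p.a (l i)) t (w i) z} ⊆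
        ⋃ s : Fin (p.a J) → Bool, {i | Pat (p.a J) (p.a (l i)) t (w i) z ∧ f i = s} := by
      intro i hi
      exact Set.mem_iUnion.2 ⟨f i, hi, rfl⟩
    refine (Set.finite_iUnion fun s => ?_).subset h1
    exact hcon s
  let s' : ℕ → Bool := fun e => if h : e < p.a J then s ⟨e, h⟩ else false
  refine ⟨s', ⟨J, fun j hj => ?_⟩, fun k0 => ?_⟩
  · refine p.loc j z _ (fun e he _ => ?_) (hz j hj)
    have h1 : ¬ e < p.a J := not_lt.2 ((p.mono.monotone hj).trans he)
    unfold cat
    rw [if_neg h1]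
  · obtain ⟨i, ⟨hi, hfi⟩, hik⟩ := hs.exists_gt k0
    refine ⟨k i, hik.le.trans (hk.id_le i), ?_⟩
    have h1 : cat (p.a J) s' z = cat (p.a J) (v i) z := by
      funext e
      unfold cat
      by_cases h3 : e < p.a J
      · rw [if_pos h3, if_pos h3]
        show (if h : e < p.a J then s ⟨e, h⟩ else false) = v i e
        rw [dif_pos h3, ← hfi]
      · rw [if_neg h3, if_neg h3]
    rw [h1]
    exact hv i hi

end Pool.Agent.SCO
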